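import Pool.Agent.H16.TK.Stmt2

set_option autoImplicit false

open Set

namespace Pool.Agent.TK

theorem pf_CSX {C : Type} {c0 : C} (hNEX : NEX C c0) : CSX C c0 := by
  intro M hM w hw P A0 hA0 hP hD hq
  have key : ∀ A : {A : Set ℕ // A.Finite ∧ P ⊆ A}, ∃ S, IsNext M w P A.1 S :=
    fun A => hNEX M hM w hw P A.1 A.2.1 A.2.2 hD
  choose f hf using key
  let step : {A : Set ℕ // A.Finite ∧ P ⊆ A} → {A : Set ℕ // A.Finite ∧ P ⊆ A} :=
    fun A => ⟨A.1 ∪ f A, A.2.1.union (hf A).1, A.2.2.trans subset_union_left⟩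
  let g : ℕ → {A : Set ℕ // A.Finite ∧ P ⊆ A} := fun n => step^[n] ⟨A0, hA0, hP⟩
  refine ⟨fun n => (g n).1, fun n => f (g n), ⟨hw, hA0, hP, hq, fun n => hf (g n), fun n => ?_⟩, rfl⟩
  show (step^[n + 1] _).1 = _
  rw [Function.iterate_succ_apply']

end Pool.Agent.TK
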