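import Pool.Agent.H16.TK.Stmt2

set_option autoImplicit false

open Set

namespace Pool.Agent.TK

section
variable {C : Type} {c0 : C}

/-- the class of the pairs (Gaifman graph, structure) -/
private def XX (c0 : C) (X : Set (List ℕ → C)) : Set (St C) :=
  {M | M.2 ∈ X ∧ ∀ u v, M.1 u v = true ↔ (Gaifman c0 M.2).Adj u v}

private lemma XX_meas [MeasurableSpace C] [StandardBorelSpace C] {X : Set (List ℕ → C)}
    (hX : MeasurableSet X) : MeasurableSet (XX c0 X) := by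
  have h2 : Measurable (fun M : St C => M.2) := measurable_snd
  have h1 : ∀ u v, Measurable (fun M : St C => M.1 u v) := fun u v =>
    (measurable_pi_apply v).comp ((measurable_pi_apply u).comp measurable_fst)
  have h3 : ∀ l, Measurable (fun M : St C => M.2 l) := fun l =>
    (measurable_pi_apply l).comp measurable_snd
  have e : XX c0 X = (Prod.snd ⁻¹' X) ∩ ⋂ u, ⋂ v, {M : St C | M.1 u v = true ↔
      (u ≠ v ∧ ∃ l : List ℕ, M.2 l ≠ c0 ∧ u ∈ l ∧ v ∈ l)} := by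
    ext M
    simp only [XX, mem_setOf_eq, mem_inter_iff, mem_preimage, mem_iInter, Gaifman]
  rw [e]
  refine (h2 hX).inter (MeasurableSet.iInter fun u => MeasurableSet.iInter fun v => ?_)
  have m1 : MeasurableSet {M : St C | M.1 u v = true} := (h1 u v) (measurableSet_singleton true)
  have m2 : MeasurableSet {M : St C | u ≠ v ∧ ∃ l : List ℕ, M.2 l ≠ c0 ∧ u ∈ l ∧ v ∈ l} := by
    have e2 : {M : St C | u ≠ v ∧ ∃ l : List ℕ, M.2 l ≠ c0 ∧ u ∈ l ∧ v ∈ l} =
        {_M : St C | u ≠ v} ∩ ⋃ l : List ℕ, ({M : St C | M.2 l ∈ ({c0}ᶜ : Set C)} ∩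
          {_M : St C | u ∈ l ∧ v ∈ l}) := by
      ext M
      simp only [mem_setOf_eq, mem_inter_iff, mem_iUnion, mem_compl_iff, mem_singleton_iff, ne_eq]
    rw [e2]
    refine (MeasurableSet.const _).inter (MeasurableSet.iUnion fun l => ?_)
    exact ((h3 l) (measurableSet_singleton c0).compl).inter (MeasurableSet.const _)
  have e3 : {M : St C | M.1 u v = true ↔ (u ≠ v ∧ ∃ l : List ℕ, M.2 l ≠ c0 ∧ u ∈ l ∧ v ∈ l)} =
      ({M : St C | M.1 u v = true} ∩ {M : St C | u ≠ v ∧ ∃ l : List ℕ, M.2 l ≠ c0 ∧ u ∈ l ∧ v ∈ l}) ∪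
      ({M : St C | M.1 u v = true}ᶜ ∩
        {M : St C | u ≠ v ∧ ∃ l : List ℕ, M.2 l ≠ c0 ∧ u ∈ l ∧ v ∈ l}ᶜ) := by
    ext M
    simp only [mem_setOf_eq, mem_inter_iff, mem_union, mem_compl_iff]
    exact iff_iff_and_or_not_and_not
  rw [e3]
  exact (m1.inter m2).union (m1.compl.inter m2.compl)

private lemma XX_valid {X : Set (List ℕ → C)} {M : St C} (hM : M ∈ XX c0 X) : Valid c0 M := by
  refine ⟨fun u v => ?_, fun u => ?_, fun l hl u hu v hv huv => ?_⟩
  · rw [Bool.eq_iff_iff, hM.2 u v, hM.2 v u]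
    exact (Gaifman c0 M.2).adj_comm u v
  · by_contra h
    rw [Bool.not_eq_false] at h
    exact ((hM.2 u u).1 h).1 rfl
  · exact (hM.2 u v).2 ⟨huv, l, hl, hu, hv⟩

private lemma gaif_iso {c c' : List ℕ → C} {h : Equiv.Perm ℕ} (hh : ∀ l : List ℕ, c l = c' (l.map h))
    (u v : ℕ) : (Gaifman c0 c).Adj u v ↔ (Gaifman c0 c').Adj (h u) (h v) := by
  constructor
  · rintro ⟨h1, l, hl, hu, hv⟩
    refine ⟨fun e => h1 (h.injective e), l.map h, ?_, List.mem_map.2 ⟨u, hu, rfl⟩,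
      List.mem_map.2 ⟨v, hv, rfl⟩⟩
    rwa [← hh]
  · rintro ⟨h1, l, hl, hu, hv⟩
    refine ⟨fun e => h1 (congrArg h e), l.map h.symm, ?_, List.mem_map.2 ⟨h u, hu, by simp⟩,
      List.mem_map.2 ⟨h v, hv, by simp⟩⟩
    rw [hh, List.map_map]
    have e : (⇑h ∘ ⇑h.symm) = id := by funext x; simp
    rwa [e, List.map_id]

private lemma XX_inv {X : Set (List ℕ → C)} (hX : ∀ c ∈ X, ∀ c', RIso c c' → c' ∈ X)
    {M : St C} (hM : M ∈ XX c0 X) {N : St C} (hN : Iso M N) : N ∈ XX c0 X := by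
  obtain ⟨h, -, h1, h2⟩ := hN
  refine ⟨hX M.2 hM.1 N.2 ⟨h, h2⟩, fun u v => ?_⟩
  have := h1 (h.symm u) (h.symm v)
  have g := gaif_iso (c0 := c0) h2 (h.symm u) (h.symm v)
  simp only [Equiv.apply_symm_apply] at this g
  rw [← this, hM.2, g]

end

theorem pf_RED {C : Type} [MeasurableSpace C] [StandardBorelSpace C] {c0 : C} : RED C c0 := by
  classical
  intro H X hX hinv
  rcases H (XX c0 X) (XX_meas hX) (fun M hM => XX_valid hM)
    (fun M hM N hN => XX_inv hinv hM hN) with ⟨f, hf, hfX, hne⟩ | ⟨T, hT, hTX⟩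
  · left
    refine ⟨fun x => (f x).2, measurable_snd.comp hf, fun x => (hfX x).1, ?_⟩
    rintro x x' hxx ⟨h, hh⟩
    apply hne x x' hxx
    refine ⟨h, by simp, fun u v => ?_, hh⟩
    rw [Bool.eq_iff_iff, (hfX x).2 u v, (hfX x').2 (h u) (h v)]
    exact gaif_iso hh u v
  · right
    refine ⟨Prod.snd '' T, hT.image _, ?_⟩
    intro c hc htop
    let M : St C := (fun u v => decide ((Gaifman c0 c).Adj u v), c)
    have hM : M ∈ XX c0 X := ⟨hc, fun u v => by simp [M]⟩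
    have hgr : gr M = Gaifman c0 c := by
      ext u v
      simp only [gr, SimpleGraph.fromRel_adj, M, decide_eq_true_eq]
      constructor
      · rintro ⟨-, h | h⟩
        · exact h
        · exact h.symm
      · intro h
        exact ⟨h.ne, Or.inl h⟩
    obtain ⟨N, hN, h, -, -, h2⟩ := hTX M hM (by rw [hgr]; exact htop)
    exact ⟨N.2, ⟨N, hN, rfl⟩, h, h2⟩

end Pool.Agent.TK
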